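import Pool.Agent.H34.N6.Main
import Pool.Agent.H23.QCF.Targets

/-!
# Block E: the device

`L = k(e)`, `P` the minimal polynomial of `e`, `δ = D(e)`. Targets of the rows.
-/

set_option autoImplicit false

open Polynomial NumberField IsDedekindDomain Pool.Agent.H32.QC Pool.Agent.H34.N6

namespace Pool.Agent.H13.DEV

/-- the embedding of `k` in the completion of `K` -/
noncomputable abbrev kc (k : Type) {K : Type} [Field k] [NumberField k] [Field K] [NumberField K]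
    [Algebra k K] (w : FPl K) : k →+* w.adicCompletion K := (ic w).comp (algebraMap k K)

/-- `L = k(e)` and `P` is the minimal polynomial of `e` -/
structure Gen {k L : Type} [Field k] [Field L] [Algebra k L] (P : k[X]) (e : L) : Prop where
  adj : IntermediateField.adjoin k {e} = ⊤
  mp : minpoly k e = P

/-- the product of the symbols over the places above `S` -/
noncomputable def sg {k L : Type} [Field k] [NumberField k] [Field L] [NumberField L]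
    [Algebra k L] (D : k[X]) (e : L) (S : Finset (Pl k)) (G : Pl k → k[X]) : ℤ :=
  ∏ᶠ (w : Pl L) (_ : bel (k := k) w ∈ S), hs w (aeval e (G (bel (k := k) w))) (aeval e D)

/-- the auxiliary prime number -/
structure PrimeOK {k : Type} [Field k] [NumberField k] (P D : k[X]) (S : Finset (Pl k)) (p : ℕ) :
    Prop where
  prime : p.Prime
  off : ∀ v : FPl k, Sum.inl v ∈ S → (p : 𝓞 k) ∉ v.asIdeal
  spl : ∀ (K : Type) [Field K] [NumberField K] [Algebra k K] (w : FPl K),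
    (p : 𝓞 K) ∈ w.asIdeal → (P.map (kc k w)).Splits ∧
      ∀ e : w.adicCompletion K, eval₂ (kc k w) e P = 0 → IsSquare (eval₂ (kc k w) e D)

/-- the polynomial of Theorem D -/
structure Out {k L : Type} [Field k] [NumberField k] [Field L] [NumberField L] [Algebra k L]
    (D : k[X]) (e : L) (S : Finset (Pl k)) (N p : ℕ) (G : Pl k → k[X]) (ε : Pl k → ℝ)
    (G' : k[X]) : Prop where
  mon : G'.Monic
  deg : G'.natDegree = N
  ne : aeval e G' ≠ 0
  close : ∀ v ∈ S, Close v (ε v) G' (G v)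
  int : ∀ v : FPl k, Sum.inl v ∉ S → (p : 𝓞 k) ∉ v.asIdeal → Int v G'
  unit : ∀ w : FPl L, Sum.inl (w.under (𝓞 k)) ∉ S → (p : 𝓞 L) ∉ w.asIdeal →
    ¬ IsSquare (ic w (aeval e D)) → ‖ic w (aeval e G')‖ = 1

/-- the hypotheses of the device -/
structure Hyp {k : Type} [Field k] [NumberField k] (P D : k[X])
    (R : ∀ (K : Type) [Field K] [NumberField K] [Algebra k K], Pl K → K → Prop)
    (S : Finset (Pl k)) (N : ℕ) (G : Pl k → k[X]) (ε : Pl k → ℝ) : Prop where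
  mon : P.Monic
  irr : Irreducible P
  ndv : ¬ P ∣ D
  nsq : ¬ SqMod P D
  good : ∀ v : FPl k, Sum.inl v ∉ S → GoodAt P D v
  real : ∀ φ : k →+* ℝ, Sum.inr φ ∈ S
  odd : Odd N
  le : P.natDegree ≤ N
  loc : ∀ v ∈ S, 0 < ε v ∧ (G v).Monic ∧ (G v).natDegree = N ∧ IsCoprime (G v) P ∧
    (G v).Separable ∧ NearOK R v N (G v) (ε v)
  one : ∀ (K : Type) [Field K] [NumberField K] [Algebra k K] (θ : K) (w₀ : FPl K),
    aeval θ P ≠ 0 → (∀ w : Pl K, w ≠ Sum.inl w₀ → R K w θ) → ∀ w, R K w θ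
  pos : ∀ (K : Type) [Field K] [NumberField K] [Algebra k K] (w : FPl K) (θ : K),
    Sum.inl (w.under (𝓞 k)) ∉ S → ‖ic w θ‖ ≤ 1 → aeval θ P ≠ 0 →
    (∀ e : w.adicCompletion K, eval₂ (kc k w) e P = 0 →
      ‖e - ic w θ‖ < 1 → IsSquare (eval₂ (kc k w) e D)) → R K (Sum.inl w) θ
  neg : ∀ (K : Type) [Field K] [NumberField K] [Algebra k K] (w : FPl K) (θ : K),
    Sum.inl (w.under (𝓞 k)) ∉ S → ‖ic w θ‖ ≤ 1 → aeval θ P ≠ 0 →
    (∃ e : w.adicCompletion K, eval₂ (kc k w) e P = 0 ∧ ‖e - ic w θ‖ < 1 ∧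
      (∀ x : w.adicCompletion K, ‖x‖ < 1 → ‖x‖ ≤ ‖e - ic w θ‖) ∧
      ¬ IsSquare (eval₂ (kc k w) e D)) → ¬ R K (Sum.inl w) θ
  spl : ∀ (K : Type) [Field K] [NumberField K] [Algebra k K] (w : FPl K) (θ : K),
    aeval θ P ≠ 0 → (P.map (kc k w)).Splits →
    (∀ e : w.adicCompletion K, eval₂ (kc k w) e P = 0 → IsSquare (eval₂ (kc k w) e D)) →
    R K (Sum.inl w) θ

/-- the polynomial at the auxiliary place: `G(e)` is a generator at `ws` and a unit at the other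
places above, and `e` is a simple root of the reduction -/
structure Star {k L : Type} [Field k] [NumberField k] [Field L] [NumberField L] [Algebra k L]
    (e : L) (N : ℕ) (ws : FPl L) (G : k[X]) : Prop where
  mon : G.Monic
  deg : G.natDegree = N
  int : Int (ws.under (𝓞 k)) G
  lt : ‖ic ws (aeval e G)‖ < 1
  mx : ∀ x : ws.adicCompletion L, ‖x‖ < 1 → ‖x‖ ≤ ‖ic ws (aeval e G)‖
  der : ‖ic ws (aeval e (derivative G))‖ = 1
  oth : ∀ w : FPl L, w.under (𝓞 k) = ws.under (𝓞 k) → w ≠ ws → ‖ic w (aeval e G)‖ = 1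

/-! ## Basic facts on places -/

/-- E0: a root gives a homomorphism -/
def T_RTH : Prop := ∀ (k L : Type) [Field k] [Field L] [Algebra k L] (P : k[X]) (e : L),
  P.Monic → Gen P e → ∀ (F : Type) [Field F] (ι : k →+* F) (e' : F), eval₂ ι e' P = 0 →
  ∃ f : L →+* F, f e = e' ∧ ∀ x : k, f (algebraMap k L x) = ι x

/-- E1: the field generated by a root -/
def T_EXA : Prop := ∀ (k : Type) [Field k] [NumberField k] (P : k[X]), P.Monic →
  Irreducible P → ∃ (L : Type) (_ : Field L) (_ : NumberField L) (_ : Algebra k L) (e : L),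
    Gen P e ∧ Module.finrank k L = P.natDegree

/-- E2: finiteness -/
def T_FIN : Prop := ∀ (k L : Type) [Field k] [NumberField k] [Field L] [NumberField L]
  [Algebra k L], (∀ v : Pl k, {w : Pl L | bel (k := k) w = v}.Finite) ∧
  (∀ p : ℕ, p.Prime → {w : FPl L | (p : 𝓞 L) ∈ w.asIdeal}.Finite) ∧
  ∀ x : L, x ≠ 0 → {w : FPl L | ‖ic w x‖ ≠ 1}.Finite

/-- E3: the places above, elements from below -/
def T_BEL : Prop := ∀ (k L : Type) [Field k] [NumberField k] [Field L] [NumberField L]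
  [Algebra k L] (w : FPl L),
  (∀ x : k, (‖kc k w x‖ ≤ 1 ↔ ‖ic (w.under (𝓞 k)) x‖ ≤ 1) ∧
    (‖kc k w x‖ < 1 ↔ ‖ic (w.under (𝓞 k)) x‖ < 1)) ∧
  (∀ n : ℕ, (n : 𝓞 L) ∈ w.asIdeal ↔ (n : 𝓞 k) ∈ (w.under (𝓞 k)).asIdeal) ∧
  ∀ ε : ℝ, 0 < ε → ∃ ε' : ℝ, 0 < ε' ∧ ∀ x : k, ‖ic (w.under (𝓞 k)) x‖ < ε' → ‖kc k w x‖ < ε

/-- E4: continuous homomorphisms between completions -/
def T_HOM : Prop := ∀ (E L : Type) [Field E] [NumberField E] [Field L] [NumberField L]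
  (w : FPl E) (w' : FPl L) (g : w'.adicCompletion L →+* w.adicCompletion E), Continuous g →
  ∀ x, (‖g x‖ ≤ 1 ↔ ‖x‖ ≤ 1) ∧ (‖g x‖ < 1 ↔ ‖x‖ < 1)

/-- E5: a place is determined by its maximal ideal -/
def T_UNQ : Prop := ∀ (K : Type) [Field K] [NumberField K] (w w' : FPl K),
  (∀ x : K, ‖ic w' x‖ < 1 → ‖ic w x‖ < 1) → w' = w

/-- E6: the place induced by an embedding in a completion -/
def T_IPL : Prop := ∀ (k K L : Type) [Field k] [NumberField k] [Field K] [NumberField K]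
  [Algebra k K] [Field L] [NumberField L] [Algebra k L] (ws : FPl L)
  (f : K →+* ws.adicCompletion L), (∀ x : k, f (algebraMap k K x) = kc k ws x) →
  ∃ (w₀ : FPl K) (h : w₀.adicCompletion K →+* ws.adicCompletion L), Continuous h ∧
    (∀ x : K, h (ic w₀ x) = f x) ∧ w₀.under (𝓞 k) = ws.under (𝓞 k)

/-- E7: the place of `L` given by a root of `P` in a completion of `K` -/
def T_PLE : Prop := ∀ (k L K : Type) [Field k] [NumberField k] [Field L] [NumberField L]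
  [Algebra k L] [Field K] [NumberField K] [Algebra k K] (P : k[X]) (e : L) (w : FPl K),
  P.Monic → Gen P e → ∀ e' : w.adicCompletion K, eval₂ (kc k w) e' P = 0 →
  ∃ (w' : FPl L) (g : w'.adicCompletion L →+* w.adicCompletion K), Continuous g ∧
    g (ic w' e) = e' ∧ (∀ x : k, g (kc k w' x) = kc k w x) ∧ w'.under (𝓞 k) = w.under (𝓞 k)

/-- E8: Hensel's lemma -/
def T_HEN : Prop := ∀ (F : Type) [NormedField F] [IsUltrametricDist F] [CompleteSpace F]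
  (G : F[X]) (a : F), (∀ i, ‖G.coeff i‖ ≤ 1) → ‖a‖ ≤ 1 → ‖eval a G‖ < 1 →
  ‖eval a (derivative G)‖ = 1 → ∃ b : F, eval b G = 0 ∧ ‖b - a‖ < 1 ∧
    ∀ b', eval b' G = 0 → ‖b' - a‖ < 1 → b' = b

/-! ## Coefficients -/

/-- E9: the trace of an integral element -/
def T_TRI : Prop := ∀ (k L : Type) [Field k] [NumberField k] [Field L] [NumberField L]
  [Algebra k L] (v : FPl k) (y : L), (∀ w : FPl L, w.under (𝓞 k) = v → ‖ic w y‖ ≤ 1) →
  ‖ic v (Algebra.trace k L y)‖ ≤ 1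

/-- E10: coefficients are integral at good places -/
def T_CFI : Prop := ∀ (k L : Type) [Field k] [NumberField k] [Field L] [NumberField L]
  [Algebra k L] (P D : k[X]) (e : L) (v : FPl k), Gen P e → GoodAt P D v →
  ∀ Q : k[X], Q.degree < P.degree →
  (∀ w : FPl L, w.under (𝓞 k) = v → ‖ic w (aeval e Q)‖ ≤ 1) → Int v Q

/-- E11: coefficients are small, finite places -/
def T_CFC : Prop := ∀ (k L : Type) [Field k] [NumberField k] [Field L] [NumberField L]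
  [Algebra k L] (P : k[X]) (e : L) (v : FPl k), Gen P e → ∀ ε : ℝ, 0 < ε →
  ∃ ε' : ℝ, 0 < ε' ∧ ∀ Q : k[X], Q.degree < P.degree →
  (∀ w : FPl L, w.under (𝓞 k) = v → ‖ic w (aeval e Q)‖ < ε') → Close (Sum.inl v) ε Q 0

/-- E12: coefficients are small, real places -/
def T_CFR : Prop := ∀ (k L : Type) [Field k] [NumberField k] [Field L] [NumberField L]
  [Algebra k L] (P : k[X]) (e : L) (φ : k →+* ℝ), Gen P e → ∀ ε : ℝ, 0 < ε →
  ∃ ε' : ℝ, 0 < ε' ∧ ∀ Q : k[X], Q.degree < P.degree →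
  (∀ σ : L →+* ℂ, σ.comp (algebraMap k L) = Complex.ofRealHom.comp φ →
    ‖σ (aeval e Q)‖ < ε') → Close (Sum.inr φ) ε Q 0

/-! ## The norm form -/

/-- E13: the factor `κ` -/
def T_KAP : Prop := ∀ (L : Type) [Field L] [NumberField L] (δ : L) (A : Finset (Pl L))
  (g : Pl L → L), δ ≠ 0 →
  (∀ w : FPl L, Sum.inl w ∉ A → w.valuation L 2 = 1 ∧ w.valuation L δ = 1) →
  (∀ w ∈ A, g w ≠ 0) → ∏ w ∈ A, hs w (g w) δ = 1 →
  ∃ κ : L, κ ≠ 0 ∧
    (∀ w ∈ A, AtPl w fun F _ ι => ∃ x y : F, ι κ * (x ^ 2 - ι δ * y ^ 2) = ι (g w)) ∧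
    ∀ w : FPl L, Sum.inl w ∉ A → ¬ IsSquare (ic w δ) →
      ∃ m : ℤ, w.valuation L κ = WithZero.exp (2 * m)

/-- E14: targets at the places where `κ` is no unit -/
def T_LTG : Prop := ∀ (L : Type) [Field L] [NumberField L] (w : FPl L) (κ δ : L), κ ≠ 0 →
  ‖ic w δ‖ = 1 →
  (¬ IsSquare (ic w δ) → ∃ m : ℤ, w.valuation L κ = WithZero.exp (2 * m)) →
  ∃ (x y : w.adicCompletion L) (U V : Set (w.adicCompletion L)), U ∈ nhds x ∧ V ∈ nhds y ∧
    ∀ x' ∈ U, ∀ y' ∈ V, ‖ic w κ * (x' ^ 2 - ic w δ * y' ^ 2)‖ ≤ 1 ∧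
      (¬ IsSquare (ic w δ) → ‖ic w κ * (x' ^ 2 - ic w δ * y' ^ 2)‖ = 1)

/-- E15: the other places -/
def T_FAR : Prop := ∀ (L : Type) [Field L] [NumberField L] (w : FPl L)
  (δ x y : w.adicCompletion L), ‖(2 : w.adicCompletion L)‖ = 1 → ‖δ‖ = 1 → ‖x‖ ≤ 1 →
  ‖y‖ ≤ 1 → (‖x‖ < 1 → ‖y‖ = 1) → ¬ IsSquare δ → ‖x ^ 2 - δ * y ^ 2‖ = 1

/-- E16: the element `η` -/
def T_ETA : Prop := ∀ (L : Type) [Field L] [NumberField L] (δ : L) (p : ℕ)
  (A : Finset (Pl L)) (g : Pl L → L) (gi : InfinitePlace L → L) (ε : ℝ), δ ≠ 0 → p.Prime →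
  0 < ε → (∀ w : FPl L, Sum.inl w ∈ A → (p : 𝓞 L) ∉ w.asIdeal) →
  (∀ ψ : L →+* ℝ, Sum.inr ψ ∈ A) →
  (∀ w : FPl L, Sum.inl w ∉ A → w.valuation L 2 = 1 ∧ w.valuation L δ = 1) →
  (∀ w ∈ A, g w ≠ 0) → ∏ w ∈ A, hs w (g w) δ = 1 →
  ∃ η : L, (∀ w ∈ A, av w (η - g w) < ε) ∧
    (∀ w : InfinitePlace L, w.IsComplex → w (η - gi w) < ε) ∧
    ∀ w : FPl L, Sum.inl w ∉ A → (p : 𝓞 L) ∉ w.asIdeal →
      ‖ic w η‖ ≤ 1 ∧ (¬ IsSquare (ic w δ) → ‖ic w η‖ = 1)

/-! ## Theorem D -/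

/-- E17: the cofactor -/
def T_HPO : Prop := ∀ (k : Type) [Field k] [NumberField k] (S : Finset (Pl k)) (p n : ℕ)
  (H : Pl k → k[X]) (ε : ℝ), p.Prime → (∀ v : FPl k, Sum.inl v ∈ S → (p : 𝓞 k) ∉ v.asIdeal) →
  (∀ v ∈ S, (H v).Monic ∧ (H v).natDegree = n) → 0 < ε →
  ∃ H' : k[X], H'.Monic ∧ H'.natDegree = n ∧ (∀ v ∈ S, Close v ε H' (H v)) ∧
    ∀ v : FPl k, Sum.inl v ∉ S → (p : 𝓞 k) ∉ v.asIdeal → Int v H'

/-- E18: multiplication by `P` -/
def T_PMU : Prop := ∀ (k : Type) [Field k] [NumberField k] (v : Pl k) (P : k[X]) (n : ℕ)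
  (ε : ℝ), 0 < ε → ∃ ε' : ℝ, 0 < ε' ∧ ∀ Q : k[X], Q.natDegree ≤ n → Close v ε' Q 0 →
    Close v ε (P * Q) 0

/-- E19: Theorem D -/
def T_THD : Prop := ∀ (k L : Type) [Field k] [NumberField k] [Field L] [NumberField L]
  [Algebra k L] (P D : k[X]) (e : L) (S : Finset (Pl k)) (N p : ℕ) (G : Pl k → k[X])
  (ε : Pl k → ℝ), P.Monic → Gen P e → ¬ IsSquare (aeval e D) →
  (∀ v : FPl k, Sum.inl v ∉ S → GoodAt P D v) → (∀ φ : k →+* ℝ, Sum.inr φ ∈ S) →
  P.natDegree ≤ N → p.Prime → (∀ v : FPl k, Sum.inl v ∈ S → (p : 𝓞 k) ∉ v.asIdeal) →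
  (∀ v ∈ S, 0 < ε v ∧ (G v).Monic ∧ (G v).natDegree = N ∧ aeval e (G v) ≠ 0) →
  sg D e S G = 1 → ∃ G' : k[X], Out D e S N p G ε G'

/-! ## The places of `k(θ)` -/

/-- E20: the prime number -/
def T_PRI : Prop := ∀ (k : Type) [Field k] [NumberField k] (P D : k[X]) (S : Finset (Pl k)),
  Irreducible P → ¬ P ∣ D → ∃ p : ℕ, PrimeOK P D S p

/-- E21: a root of `P` near `θ` gives a place of `L` at which `G(e)` is no unit -/
def T_NRT : Prop := ∀ (k L K : Type) [Field k] [NumberField k] [Field L] [NumberField L]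
  [Algebra k L] [Field K] [NumberField K] [Algebra k K] (P G : k[X]) (e : L) (θ : K)
  (w : FPl K), Gen P e → P.Monic → Int (w.under (𝓞 k)) P → G.Monic →
  Int (w.under (𝓞 k)) G → aeval θ G = 0 → ‖ic w θ‖ ≤ 1 ∧
  ∀ e' : w.adicCompletion K, eval₂ (kc k w) e' P = 0 → ‖e' - ic w θ‖ < 1 →
  ∃ (w' : FPl L) (g : w'.adicCompletion L →+* w.adicCompletion K), Continuous g ∧
    g (ic w' e) = e' ∧ (∀ x : k, g (kc k w' x) = kc k w x) ∧
    w'.under (𝓞 k) = w.under (𝓞 k) ∧ ‖ic w' (aeval e G)‖ < 1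

/-- E22: the property holds at all places which are not above `S' \ S` -/
def T_ALW : Prop := ∀ (k L : Type) [Field k] [NumberField k] [Field L] [NumberField L]
  [Algebra k L] (P D : k[X]) (e : L)
  (R : ∀ (K : Type) [Field K] [NumberField K] [Algebra k K], Pl K → K → Prop)
  (S S' : Finset (Pl k)) (N p : ℕ) (G Gx : Pl k → k[X]) (ε εx : Pl k → ℝ) (G' : k[X]),
  Hyp P D R S N G ε → Gen P e → S ⊆ S' → PrimeOK P D S' p →
  (∀ v ∈ S, Gx v = G v ∧ εx v ≤ ε v) → Out D e S' N p Gx εx G' →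
  ∀ (K : Type) [Field K] [NumberField K] [Algebra k K] (θ : K),
  IntermediateField.adjoin k {θ} = ⊤ → aeval θ G' = 0 → aeval θ P ≠ 0 ∧
  ∀ w : Pl K, (bel (k := k) w ∈ S' → bel (k := k) w ∈ S) → R K w θ

/-- E23: an odd degree factor -/
def T_ODF : Prop := ∀ (k : Type) [Field k] [NumberField k] (G : k[X]), G.Monic →
  Odd G.natDegree → ∃ (K : Type) (_ : Field K) (_ : NumberField K) (_ : Algebra k K) (θ : K),
    Odd (Module.finrank k K) ∧ IntermediateField.adjoin k {θ} = ⊤ ∧ aeval θ G = 0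

/-! ## The parity -/

/-- E24: the factor of the reduction -/
def T_RED : Prop := ∀ (k L : Type) [Field k] [NumberField k] [Field L] [NumberField L]
  [Algebra k L] (P : k[X]) (e : L) (ws : FPl L), P.Monic → Int (ws.under (𝓞 k)) P →
  aeval e P = 0 → ∃ A : k[X], A.Monic ∧ Int (ws.under (𝓞 k)) A ∧
    A.natDegree ≤ P.natDegree ∧ ‖ic ws (aeval e A)‖ < 1 ∧
    ∀ Q : k[X], Int (ws.under (𝓞 k)) Q → ‖ic ws (aeval e Q)‖ < 1 →
      ∃ C B : k[X], Int (ws.under (𝓞 k)) C ∧ Q = A * C + B ∧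
        ∀ i, ‖ic (ws.under (𝓞 k)) (B.coeff i)‖ < 1

/-- E25: properties of the factor at a good place -/
def T_FAC : Prop := ∀ (k L : Type) [Field k] [NumberField k] [Field L] [NumberField L]
  [Algebra k L] (P D : k[X]) (e : L) (ws : FPl L), P.Monic → Gen P e →
  GoodAt P D (ws.under (𝓞 k)) → ∃ A : k[X], A.Monic ∧ Int (ws.under (𝓞 k)) A ∧
    A.natDegree ≤ P.natDegree ∧ ‖ic ws (aeval e A)‖ < 1 ∧
    ‖ic ws (aeval e (derivative A))‖ = 1 ∧
    (∀ w : FPl L, w.under (𝓞 k) = ws.under (𝓞 k) → w ≠ ws → ‖ic w (aeval e A)‖ = 1) ∧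
    ∀ π : k, ‖ic (ws.under (𝓞 k)) π‖ < 1 →
      (∀ x : k, ‖ic (ws.under (𝓞 k)) x‖ < 1 →
        ‖ic (ws.under (𝓞 k)) x‖ ≤ ‖ic (ws.under (𝓞 k)) π‖) →
      ∀ x : ws.adicCompletion L, ‖x‖ < 1 → ‖x‖ ≤ ‖kc k ws π‖

/-- E26: the polynomial at the auxiliary place -/
def T_GST : Prop := ∀ (k L : Type) [Field k] [NumberField k] [Field L] [NumberField L]
  [Algebra k L] (P D : k[X]) (e : L) (ws : FPl L) (N : ℕ) (c : k), P.Monic → Gen P e →
  GoodAt P D (ws.under (𝓞 k)) → P.natDegree ≤ N → ‖ic (ws.under (𝓞 k)) c‖ ≤ 1 →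
  ‖ic (ws.under (𝓞 k)) (eval c P)‖ = 1 → ∃ G : k[X], Star e N ws G

/-- E27: the conditions are open -/
def T_STP : Prop := ∀ (k L : Type) [Field k] [NumberField k] [Field L] [NumberField L]
  [Algebra k L] (P : k[X]) (e : L) (ws : FPl L) (N : ℕ) (G : k[X]), P.Monic →
  Int (ws.under (𝓞 k)) P → aeval e P = 0 → Star e N ws G →
  ∃ ε : ℝ, 0 < ε ∧ ∀ G' : k[X], G'.Monic → G'.natDegree = N →
    Close (Sum.inl (ws.under (𝓞 k))) ε G' G → Star e N ws G'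

/-- E28: the symbols above the auxiliary place -/
def T_FIB : Prop := ∀ (k L : Type) [Field k] [NumberField k] [Field L] [NumberField L]
  [Algebra k L] (P D : k[X]) (e : L) (ws : FPl L) (N : ℕ) (G : k[X]), P.Monic → Gen P e →
  GoodAt P D (ws.under (𝓞 k)) → Star e N ws G → ¬ IsSquare (ic ws (aeval e D)) →
  ∏ᶠ (w : Pl L) (_ : bel (k := k) w = Sum.inl (ws.under (𝓞 k))),
    hs w (aeval e G) (aeval e D) = -1

/-- E29: the field generated by the root near `e` -/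
def T_BD1 : Prop := ∀ (k L : Type) [Field k] [NumberField k] [Field L] [NumberField L]
  [Algebra k L] (P : k[X]) (e : L) (ws : FPl L) (N : ℕ) (G : k[X]), P.Monic →
  Int (ws.under (𝓞 k)) P → aeval e P = 0 → Star e N ws G →
  ∃ (K : Type) (_ : Field K) (_ : NumberField K) (_ : Algebra k K) (θ : K)
    (f : K →+* ws.adicCompletion L), IntermediateField.adjoin k {θ} = ⊤ ∧ aeval θ G = 0 ∧
    (∀ x : k, f (algebraMap k K x) = kc k ws x) ∧ ‖f θ - ic ws e‖ < 1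

/-- E30: the bad place -/
def T_BD2 : Prop := ∀ (k L K : Type) [Field k] [NumberField k] [Field L] [NumberField L]
  [Algebra k L] [Field K] [NumberField K] [Algebra k K] (P D : k[X]) (e : L) (ws : FPl L)
  (N : ℕ) (G : k[X]) (θ : K) (w₀ : FPl K)
  (h : w₀.adicCompletion K →+* ws.adicCompletion L), P.Monic → aeval e P = 0 →
  GoodAt P D (ws.under (𝓞 k)) → Star e N ws G → ¬ IsSquare (ic ws (aeval e D)) →
  aeval θ G = 0 → Continuous h → (∀ x : k, h (kc k w₀ x) = kc k ws x) →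
  ‖h (ic w₀ θ) - ic ws e‖ < 1 →
  ∃ e' : w₀.adicCompletion K, eval₂ (kc k w₀) e' P = 0 ∧ ‖e' - ic w₀ θ‖ < 1 ∧
    (∀ x : w₀.adicCompletion K, ‖x‖ < 1 → ‖x‖ ≤ ‖e' - ic w₀ θ‖) ∧
    ¬ IsSquare (eval₂ (kc k w₀) e' D)

/-- E31: there is only one bad place -/
def T_BD3 : Prop := ∀ (k L K : Type) [Field k] [NumberField k] [Field L] [NumberField L]
  [Algebra k L] [Field K] [NumberField K] [Algebra k K] (P : k[X]) (e : L) (ws : FPl L)
  (N : ℕ) (G : k[X]) (θ : K) (w₀ : FPl K)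
  (h : w₀.adicCompletion K →+* ws.adicCompletion L), P.Monic → Gen P e →
  Int (ws.under (𝓞 k)) P → Star e N ws G → IntermediateField.adjoin k {θ} = ⊤ →
  aeval θ G = 0 → Continuous h → (∀ x : k, h (kc k w₀ x) = kc k ws x) →
  ‖h (ic w₀ θ) - ic ws e‖ < 1 →
  ∀ w : FPl K, w.under (𝓞 k) = ws.under (𝓞 k) → ∀ e' : w.adicCompletion K,
    eval₂ (kc k w) e' P = 0 → ‖e' - ic w θ‖ < 1 → w = w₀

/-- E32: the parity -/
def T_PAR : Prop := ∀ (k L : Type) [Field k] [NumberField k] [Field L] [NumberField L]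
  [Algebra k L] (P D : k[X]) (e : L)
  (R : ∀ (K : Type) [Field K] [NumberField K] [Algebra k K], Pl K → K → Prop)
  (S : Finset (Pl k)) (N : ℕ) (G : Pl k → k[X]) (ε : Pl k → ℝ),
  Hyp P D R S N G ε → Gen P e → sg D e S G = 1

end Pool.Agent.H13.DEV
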